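import Pool.Agent.Q255.ZS.Stm

set_option autoImplicit false

/-! Almost sure bounds for all shifts and windows. -/

namespace Pool.Agent.Q255.ZS

open MeasureTheory Filter Topology Finset
open Q289.PAM
open Pool.Agent.Q255.RM (f fac g E J L)
open Pool.Agent.Q255.HC (Sys ex S_AEG)

/-- the parameters: numerators of the shifts and of the end points, and the length -/
abbrev Pm (k : ℕ) : Type := (Fin k → ℤ) × (Fin k → ℤ) × ℤ × ℤ × ℕ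

/-- the real number `i / R^B` -/
noncomputable def sc (R B : ℕ) (i : ℤ) : ℝ := (i : ℝ) / (R : ℝ) ^ B

/-- the grid -/
noncomputable def GR (k A B R : ℕ) : Finset (Pm k) :=
  (Fintype.piFinset fun _ => Icc (-((R : ℤ) ^ (A + B))) ((R : ℤ) ^ (A + B))) ×ˢ
    ((Fintype.piFinset fun _ => Icc (-((R : ℤ) ^ (A + B))) ((R : ℤ) ^ (A + B))) ×ˢ
      (Icc (-((R : ℤ) ^ (A + B))) ((R : ℤ) ^ (A + B)) ×ˢ
        (Icc (-((R : ℤ) ^ (A + B))) ((R : ℤ) ^ (A + B)) ×ˢ Icc 1 (R ^ A))))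

lemma mem_GR {k A B R : ℕ} {t : Pm k} : t ∈ GR k A B R ↔
    (∀ j, t.1 j ∈ Icc (-((R : ℤ) ^ (A + B))) ((R : ℤ) ^ (A + B))) ∧
    (∀ j, t.2.1 j ∈ Icc (-((R : ℤ) ^ (A + B))) ((R : ℤ) ^ (A + B))) ∧
    t.2.2.1 ∈ Icc (-((R : ℤ) ^ (A + B))) ((R : ℤ) ^ (A + B)) ∧
    t.2.2.2.1 ∈ Icc (-((R : ℤ) ^ (A + B))) ((R : ℤ) ^ (A + B)) ∧
    1 ≤ t.2.2.2.2 ∧ t.2.2.2.2 ≤ R ^ A := by
  unfold GR
  rw [mem_product, mem_product, mem_product, mem_product, Fintype.mem_piFinset,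
    Fintype.mem_piFinset]
  exact and_congr Iff.rfl (and_congr Iff.rfl (and_congr Iff.rfl (and_congr Iff.rfl mem_Icc)))

lemma card_Icc_R (R m : ℕ) (hR : 1 ≤ R) :
    (Icc (-((R : ℤ) ^ m)) ((R : ℤ) ^ m)).card ≤ 3 * R ^ m := by
  rw [Int.card_Icc]
  have h1 : (1 : ℤ) ≤ (R : ℤ) ^ m := by
    have : 1 ≤ R ^ m := Nat.one_le_pow _ _ hR
    exact_mod_cast this
  have h2 : ((R : ℤ) ^ m + 1 - -((R : ℤ) ^ m)) ≤ ((3 * R ^ m : ℕ) : ℤ) := by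
    push_cast
    linarith
  exact Int.toNat_le.2 h2

lemma card_GR (k A B R : ℕ) (hR : 1 ≤ R) :
    ((GR k A B R).card : ℝ) ≤ (3 : ℝ) ^ (2 * k + 2) * (R : ℝ) ^ ((A + B) * (2 * k + 2) + A) := by
  have h1 : (GR k A B R).card ≤ (3 * R ^ (A + B)) ^ k * ((3 * R ^ (A + B)) ^ k *
      ((3 * R ^ (A + B)) * ((3 * R ^ (A + B)) * R ^ A))) := by
    unfold GR
    rw [card_product, card_product, card_product, card_product, Fintype.card_piFinset,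
      Nat.card_Icc, Nat.add_sub_cancel, prod_const, card_univ, Fintype.card_fin]
    have h2 := card_Icc_R R (A + B) hR
    gcongr
  have h3 : (3 * R ^ (A + B)) ^ k * ((3 * R ^ (A + B)) ^ k *
      ((3 * R ^ (A + B)) * ((3 * R ^ (A + B)) * R ^ A))) =
      3 ^ (2 * k + 2) * R ^ ((A + B) * (2 * k + 2) + A) := by
    ring
  rw [h3] at h1
  exact_mod_cast h1

/-- rounding -/
lemma round_mem {A B R : ℕ} (hR : 1 ≤ R) {x : ℝ} (hx : |x| ≤ (R : ℝ) ^ A) :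
    ⌊x * (R : ℝ) ^ B⌋ ∈ Icc (-((R : ℤ) ^ (A + B))) ((R : ℤ) ^ (A + B)) ∧
      |x - sc R B ⌊x * (R : ℝ) ^ B⌋| ≤ 1 / (R : ℝ) ^ B := by
  have hR1 : (1 : ℝ) ≤ R := by exact_mod_cast hR
  have hp : (0 : ℝ) < (R : ℝ) ^ B := by positivity
  obtain ⟨h1, h2⟩ := abs_le.1 hx
  have e1 : (R : ℝ) ^ (A + B) = (R : ℝ) ^ A * (R : ℝ) ^ B := pow_add _ _ _
  have h3 : -((R : ℝ) ^ (A + B)) ≤ x * (R : ℝ) ^ B := by
    rw [e1]
    nlinarith
  have h4 : x * (R : ℝ) ^ B ≤ (R : ℝ) ^ (A + B) := by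
    rw [e1]
    nlinarith
  constructor
  · rw [mem_Icc]
    constructor
    · rw [Int.le_floor]
      push_cast
      exact h3
    · have h5 := (Int.floor_le (x * (R : ℝ) ^ B)).trans h4
      exact_mod_cast h5
  · have h5 := Int.floor_le (x * (R : ℝ) ^ B)
    have h6 := Int.lt_floor_add_one (x * (R : ℝ) ^ B)
    unfold sc
    have e2 : x - (⌊x * (R : ℝ) ^ B⌋ : ℝ) / (R : ℝ) ^ B =
        (x * (R : ℝ) ^ B - ⌊x * (R : ℝ) ^ B⌋) / (R : ℝ) ^ B := by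
      field_simp
    rw [e2, abs_div, abs_of_pos hp]
    refine div_le_div_of_nonneg_right ?_ hp.le
    rw [abs_of_nonneg (by linarith)]
    linarith

open Classical in
/-- the set of characters of a parameter -/
noncomputable def Sx (ex1 : S_EXP) (k : ℕ) (η : ℝ) (hη : 0 < η) (N : ℕ) (α β : Fin k → ℝ)
    (u u' : ℝ) : Finset (ℕ →₀ ℤ) :=
  if h : 1 ≤ N ∧ u ≤ u' then ((ex1 k η hη).choose_spec.2 N α β u u' h.1 h.2).choose else ∅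

open Classical in
/-- the coefficients of a parameter -/
noncomputable def cx (ex1 : S_EXP) (k : ℕ) (η : ℝ) (hη : 0 < η) (N : ℕ) (α β : Fin k → ℝ)
    (u u' : ℝ) : (ℕ →₀ ℤ) → ℂ :=
  if h : 1 ≤ N ∧ u ≤ u' then
    ((ex1 k η hη).choose_spec.2 N α β u u' h.1 h.2).choose_spec.choose else fun _ => 0

lemma Sx_spec (ex1 : S_EXP) (k : ℕ) (η : ℝ) (hη : 0 < η) (N : ℕ) (α β : Fin k → ℝ)
    (u u' : ℝ) (hN : 1 ≤ N) (hu : u ≤ u') :
    (∀ x ∈ Sx ex1 k η hη N α β u u', ∃ a b : ℕ, 1 ≤ a ∧ a ≤ N ^ k ∧ 1 ≤ b ∧ b ≤ N ^ k ∧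
      x = fac a - fac b) ∧
    ∑ x ∈ Sx ex1 k η hη N α β u u', ‖cx ex1 k η hη N α β u u' x‖ ^ 2 ≤
      (ex1 k η hη).choose * (N : ℝ) ^ η * (u' - u) ∧
    ∀ ω : ℕ → UnitAddCircle, ∫ t in u..u', FF ω α β N t =
      ∑ x ∈ Sx ex1 k η hη N α β u u', cx ex1 k η hη N α β u u' x * ex ec x ω := by
  unfold Sx cx
  rw [dif_pos ⟨hN, hu⟩, dif_pos ⟨hN, hu⟩]
  exact ((ex1 k η hη).choose_spec.2 N α β u u' hN hu).choose_spec.choose_spec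

end Pool.Agent.Q255.ZS
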