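import Pool.Agent.Q255.ZS.Ae
import Pool.Agent.Q275.ZS.Lip

set_option autoImplicit false

/-! Almost sure bounds for all shifts and windows: the theorem. -/

namespace Pool.Agent.Q255.ZS

open MeasureTheory Filter Topology Finset
open Q289.PAM
open Pool.Agent.Q255.RM (f fac g E J L)
open Pool.Agent.Q255.HC (Sys ex S_AEG)
open Pool.Agent.Q275.ZS (S_LIP0)

/-- the error of the rounding -/
lemma round_err (ω : ℕ → UnitAddCircle) {k : ℕ} (B0 : ℕ) (CL : ℝ) (hCL : 0 < CL)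
    (lip : ∀ (N : ℕ) (α β α' β' : Fin k → ℝ) (r : ℝ), 1 ≤ N → 0 ≤ r → (∀ j, |α j - α' j| ≤ r) →
      (∀ j, |β j - β' j| ≤ r) → Continuous (FF ω α β N) ∧ ∀ t : ℝ,
        ‖FF ω α β N t‖ ≤ CL * (N : ℝ) ^ B0 ∧
        ‖FF ω α β N t - FF ω α' β' N t‖ ≤ CL * (N : ℝ) ^ B0 * r)
    (N : ℕ) (hN : 1 ≤ N) (α β α' β' : Fin k → ℝ) (r : ℝ) (hr : 0 ≤ r)
    (hα : ∀ j, |α j - α' j| ≤ r) (hβ : ∀ j, |β j - β' j| ≤ r) (u u' v v' : ℝ)
    (hu : |u - v| ≤ r) (hu' : |u' - v'| ≤ r) :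
    ‖(∫ t in u..u', FF ω α β N t) - ∫ t in v..v', FF ω α' β' N t‖ ≤
      CL * (N : ℝ) ^ B0 * r * (|u' - u| + 2) := by
  have hc1 := (lip N α β α' β' r hN hr hα hβ).1
  have hc2 : Continuous (FF ω α' β' N) := (lip N α' β' α' β' r hN hr (by simp [hr]) (by simp [hr])).1
  have hb2 := fun t => ((lip N α' β' α' β' r hN hr (by simp [hr]) (by simp [hr])).2 t).1
  have hd := fun t => ((lip N α β α' β' r hN hr hα hβ).2 t).2
  have i1 : ∀ a b : ℝ, IntervalIntegrable (FF ω α β N) volume a b := fun a b =>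
    hc1.intervalIntegrable a b
  have i2 : ∀ a b : ℝ, IntervalIntegrable (FF ω α' β' N) volume a b := fun a b =>
    hc2.intervalIntegrable a b
  have e1 : (∫ t in u..u', FF ω α β N t) - ∫ t in v..v', FF ω α' β' N t =
      (∫ t in u..u', (FF ω α β N t - FF ω α' β' N t)) + (∫ t in u..v, FF ω α' β' N t) +
        ∫ t in v'..u', FF ω α' β' N t := by
    rw [intervalIntegral.integral_sub (i1 _ _) (i2 _ _)]
    have h1 := intervalIntegral.integral_add_adjacent_intervals (i2 u v) (i2 v v')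
    have h2 := intervalIntegral.integral_add_adjacent_intervals (i2 u v') (i2 v' u')
    rw [← h2, ← h1]
    ring
  rw [e1]
  have h3 : ‖∫ t in u..u', (FF ω α β N t - FF ω α' β' N t)‖ ≤ CL * (N : ℝ) ^ B0 * r * |u' - u| :=
    intervalIntegral.norm_integral_le_of_norm_le_const fun t _ => hd t
  have h4 : ‖∫ t in u..v, FF ω α' β' N t‖ ≤ CL * (N : ℝ) ^ B0 * |v - u| :=
    intervalIntegral.norm_integral_le_of_norm_le_const fun t _ => hb2 t
  have h5 : ‖∫ t in v'..u', FF ω α' β' N t‖ ≤ CL * (N : ℝ) ^ B0 * |u' - v'| :=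
    intervalIntegral.norm_integral_le_of_norm_le_const fun t _ => hb2 t
  have h6 : CL * (N : ℝ) ^ B0 * |v - u| ≤ CL * (N : ℝ) ^ B0 * r := by
    rw [abs_sub_comm]
    exact mul_le_mul_of_nonneg_left hu (by positivity)
  have h7 : CL * (N : ℝ) ^ B0 * |u' - v'| ≤ CL * (N : ℝ) ^ B0 * r :=
    mul_le_mul_of_nonneg_left hu' (by positivity)
  refine (norm_add₃_le).trans ?_
  nlinarith

theorem ae_shift (aeg : S_AEG) (sys : S_SYS) (wg : S_WG) (ex1 : S_EXP) (lip : S_LIP0) (k A : ℕ)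
    (δ : ℝ) (hδ : 0 < δ) :
    ∀ᵐ ω ∂PT, ∃ C : ℝ, ∀ R N : ℕ, 1 ≤ R → 1 ≤ N → N ≤ R ^ A → ∀ α β : Fin k → ℝ,
      (∀ j, |α j| ≤ (R : ℝ) ^ A) → (∀ j, |β j| ≤ (R : ℝ) ^ A) → ∀ u u' : ℝ,
      |u| ≤ (R : ℝ) ^ A → |u'| ≤ (R : ℝ) ^ A → u + 1 ≤ u' →
      ‖∫ t in u..u', FF ω α β N t‖ ≤ C * (Real.sqrt (u' - u) * (R : ℝ) ^ δ) := by
  classical
  obtain ⟨B0, CL, hCL, hlip⟩ := lip k
  set B : ℕ := A + A * B0 with hB
  set η : ℝ := δ / (A + 1) with hη
  have hη0 : 0 < η := by positivity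
  set K : ℝ := (ex1 k η hη0).choose with hK
  have hK0 : 0 < K := (ex1 k η hη0).choose_spec.1
  set S : ℕ → Pm k → Finset (ℕ →₀ ℤ) := fun R t =>
    Sx ex1 k η hη0 t.2.2.2.2 (fun j => sc R B (t.1 j)) (fun j => sc R B (t.2.1 j))
      (sc R B t.2.2.1) (sc R B t.2.2.2.1) with hS
  set c : ℕ → Pm k → (ℕ →₀ ℤ) → ℂ := fun R t =>
    cx ex1 k η hη0 t.2.2.2.2 (fun j => sc R B (t.1 j)) (fun j => sc R B (t.2.1 j))
      (sc R B t.2.2.1) (sc R B t.2.2.2.1) with hc
  set Y : ℕ → Pm k → ℝ := fun R t =>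
    K * (R : ℝ) ^ (A * η) * |sc R B t.2.2.2.1 - sc R B t.2.2.1| + 1 with hY
  have hae := aeg UnitAddCircle (volume : Measure UnitAddCircle) ℤ ec vc sys.1 (Pm k) (GR k A B)
    ((A + B) * (2 * k + 2) + A) ((3 : ℝ) ^ (2 * k + 2)) (fun R hR => card_GR k A B R hR) S c Y (by
      intro K' hK' η' hη'
      obtain ⟨D, hD, h1⟩ := wg K' hK' (η' / (2 * A * k + 1)) (by positivity)
      refine ⟨D, fun R hR t ht x hx => ?_⟩
      have hR1 : (1 : ℝ) ≤ R := by exact_mod_cast hR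
      have h2 := mem_GR.1 ht
      have hle : sc R B t.2.2.1 ≤ sc R B t.2.2.2.1 := by
        by_contra hcon
        have : S R t = ∅ := by
          rw [hS]
          simp only
          unfold Sx
          rw [dif_neg fun h => hcon h.2]
        rw [this] at hx
        exact absurd hx (notMem_empty x)
      obtain ⟨a, b, ha, haN, hb, hbN, rfl⟩ := (Sx_spec ex1 k η hη0 t.2.2.2.2
        (fun j => sc R B (t.1 j)) (fun j => sc R B (t.2.1 j)) (sc R B t.2.2.1)
        (sc R B t.2.2.2.1) h2.2.2.2.2.1 hle).1 x hx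
      refine (h1 a b ha hb).trans ?_
      refine mul_le_mul_of_nonneg_left ?_ hD.le
      have h3 : t.2.2.2.2 ^ k ≤ R ^ (A * k) := by
        rw [pow_mul]
        exact Nat.pow_le_pow_left h2.2.2.2.2.2 k
      have h4 : (a : ℝ) ≤ (R : ℝ) ^ (A * k) := by exact_mod_cast haN.trans h3
      have h5 : (b : ℝ) ≤ (R : ℝ) ^ (A * k) := by exact_mod_cast hbN.trans h3
      calc ((a : ℝ) * b) ^ (η' / (2 * A * k + 1)) ≤
            ((R : ℝ) ^ (A * k) * (R : ℝ) ^ (A * k)) ^ (η' / (2 * A * k + 1)) := by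
            refine Real.rpow_le_rpow (by positivity) ?_ (by positivity)
            exact mul_le_mul h4 h5 (Nat.cast_nonneg _) (by positivity)
        _ = (R : ℝ) ^ ((2 * A * k : ℝ) * (η' / (2 * A * k + 1))) := by
            rw [← pow_add, ← Real.rpow_natCast (R : ℝ), ← Real.rpow_mul (by linarith)]
            congr 2
            push_cast
            ring
        _ ≤ (R : ℝ) ^ η' := by
            refine Real.rpow_le_rpow_of_exponent_le hR1 ?_
            rw [mul_div_assoc', div_le_iff₀ (by positivity)]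
            nlinarith) (by
      intro R hR t ht
      have h2 := mem_GR.1 ht
      have hR1 : (1 : ℝ) ≤ R := by exact_mod_cast hR
      refine ⟨by rw [hY]; positivity, ?_⟩
      by_cases hle : sc R B t.2.2.1 ≤ sc R B t.2.2.2.1
      · refine ((Sx_spec ex1 k η hη0 t.2.2.2.2
          (fun j => sc R B (t.1 j)) (fun j => sc R B (t.2.1 j)) (sc R B t.2.2.1)
          (sc R B t.2.2.2.1) h2.2.2.2.2.1 hle).2.1).trans ?_
        rw [hY]
        simp only
        rw [abs_of_nonneg (by linarith)]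
        have h3 : (t.2.2.2.2 : ℝ) ^ η ≤ (R : ℝ) ^ (A * η) := by
          rw [Real.rpow_mul (by linarith), Real.rpow_natCast]
          refine Real.rpow_le_rpow (Nat.cast_nonneg _) ?_ hη0.le
          exact_mod_cast h2.2.2.2.2.2
        have h4 : K * (t.2.2.2.2 : ℝ) ^ η * (sc R B t.2.2.2.1 - sc R B t.2.2.1) ≤
            K * (R : ℝ) ^ (A * η) * (sc R B t.2.2.2.1 - sc R B t.2.2.1) :=
          mul_le_mul_of_nonneg_right (mul_le_mul_of_nonneg_left h3 hK0.le) (by linarith)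
        linarith
      · have : S R t = ∅ := by
          rw [hS]
          simp only
          unfold Sx
          rw [dif_neg fun h => hle h.2]
        rw [this, sum_empty, hY]
        positivity) (δ / 2) (by linarith)
  have hae' : ∀ᵐ ω ∂PT, ∀ᶠ R : ℕ in atTop, ∀ t ∈ GR k A B R,
      ‖∑ x ∈ S R t, c R t x * ex ec x ω‖ ≤ (R : ℝ) ^ (δ / 2) * Real.sqrt (Y R t) := hae
  filter_upwards [hae'] with ω hω
  obtain ⟨R0, hR0⟩ := eventually_atTop.1 hω
  refine ⟨2 * CL * ((R0 : ℝ) ^ A) ^ B0 * ((R0 : ℝ) ^ A + 1) + 4 * CL + Real.sqrt (2 * K + 1), ?_⟩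
  intro R N hR hN hNR α β hα hβ u u' hu hu' huu
  have hR1 : (1 : ℝ) ≤ R := by exact_mod_cast hR
  have hNR' : (N : ℝ) ≤ (R : ℝ) ^ A := by exact_mod_cast hNR
  set H : ℝ := u' - u with hH
  have hH1 : 1 ≤ H := by linarith
  have hsH : 1 ≤ Real.sqrt H := by
    rw [Real.one_le_sqrt]
    exact hH1
  have hpR : (1 : ℝ) ≤ (R : ℝ) ^ δ := Real.one_le_rpow hR1 hδ.le
  have hp : (1 : ℝ) ≤ Real.sqrt H * (R : ℝ) ^ δ := by nlinarith
  have hHR : H ≤ 2 * (R : ℝ) ^ A := by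
    have h1 := (abs_le.1 hu).1
    have h2 := (abs_le.1 hu').2
    linarith
  have hlipω := fun (N : ℕ) (α β α' β' : Fin k → ℝ) (r : ℝ) => hlip ω N α β α' β' r
  rcases lt_or_ge R R0 with hlt | hge
  · have h1 : ‖∫ t in u..u', FF ω α β N t‖ ≤ CL * (N : ℝ) ^ B0 * |u' - u| :=
      intervalIntegral.norm_integral_le_of_norm_le_const fun t _ =>
        ((hlip ω N α β α β 0 hN le_rfl (by simp) (by simp)).2 t).1
    have hRR : (R : ℝ) ≤ R0 := by exact_mod_cast hlt.le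
    have h2 : (R : ℝ) ^ A ≤ (R0 : ℝ) ^ A := pow_le_pow_left₀ (by linarith) hRR A
    have h3 : (N : ℝ) ^ B0 ≤ ((R0 : ℝ) ^ A) ^ B0 :=
      pow_le_pow_left₀ (Nat.cast_nonneg _) (hNR'.trans h2) B0
    have h4 : CL * (N : ℝ) ^ B0 * |u' - u| ≤ CL * ((R0 : ℝ) ^ A) ^ B0 * (2 * (R0 : ℝ) ^ A) := by
      refine mul_le_mul (mul_le_mul_of_nonneg_left h3 hCL.le) ?_ (abs_nonneg _) (by positivity)
      rw [abs_of_nonneg (by linarith)]
      linarith
    calc ‖∫ t in u..u', FF ω α β N t‖ ≤ CL * ((R0 : ℝ) ^ A) ^ B0 * (2 * (R0 : ℝ) ^ A) := h1.trans h4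
      _ ≤ 2 * CL * ((R0 : ℝ) ^ A) ^ B0 * ((R0 : ℝ) ^ A + 1) + 4 * CL + Real.sqrt (2 * K + 1) := by
          have h5 : 0 ≤ CL * ((R0 : ℝ) ^ A) ^ B0 := by positivity
          have h6 := Real.sqrt_nonneg (2 * K + 1)
          nlinarith
      _ ≤ _ := le_mul_of_one_le_right (by positivity) hp
  · -- rounding
    have hBp : (0 : ℝ) < (R : ℝ) ^ B := by positivity
    set α' : Fin k → ℤ := fun j => ⌊α j * (R : ℝ) ^ B⌋ with hα'
    set β' : Fin k → ℤ := fun j => ⌊β j * (R : ℝ) ^ B⌋ with hβ'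
    set v : ℤ := ⌊u * (R : ℝ) ^ B⌋ with hv
    set v' : ℤ := ⌊u' * (R : ℝ) ^ B⌋ with hv'
    set t : Pm k := (α', β', v, v', N) with ht
    have htm : t ∈ GR k A B R := mem_GR.2
      ⟨fun j => (round_mem hR (hα j)).1, fun j => (round_mem hR (hβ j)).1, (round_mem hR hu).1,
        (round_mem hR hu').1, hN, hNR⟩
    have hr1 := (round_mem (B := B) hR hu).2
    have hr2 := (round_mem (B := B) hR hu').2
    have hr0 : (0 : ℝ) ≤ 1 / (R : ℝ) ^ B := by positivity
    have hr3 : 1 / (R : ℝ) ^ B ≤ 1 := by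
      rw [div_le_one hBp]
      exact one_le_pow₀ hR1
    have hvv : sc R B v ≤ sc R B v' := by
      unfold sc
      refine div_le_div_of_nonneg_right ?_ hBp.le
      have : v ≤ v' := Int.floor_le_floor (by nlinarith)
      exact_mod_cast this
    have h1 := hR0 R hge t htm
    have h2 := (Sx_spec ex1 k η hη0 N (fun j => sc R B (α' j)) (fun j => sc R B (β' j))
      (sc R B v) (sc R B v') hN hvv).2.2 ω
    have h3 : ‖∫ s in (sc R B v)..(sc R B v'), FF ω (fun j => sc R B (α' j))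
        (fun j => sc R B (β' j)) N s‖ ≤ (R : ℝ) ^ (δ / 2) * Real.sqrt (Y R t) := by
      rw [h2]
      exact h1
    have h4 := round_err ω B0 CL hCL hlipω N hN α β (fun j => sc R B (α' j))
      (fun j => sc R B (β' j)) (1 / (R : ℝ) ^ B) hr0 (fun j => (round_mem hR (hα j)).2)
      (fun j => (round_mem hR (hβ j)).2) u u' (sc R B v) (sc R B v') hr1 hr2
    have h5 : CL * (N : ℝ) ^ B0 * (1 / (R : ℝ) ^ B) * (|u' - u| + 2) ≤ 4 * CL := by
      have h6 : (N : ℝ) ^ B0 ≤ (R : ℝ) ^ (A * B0) := by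
        rw [pow_mul]
        exact pow_le_pow_left₀ (Nat.cast_nonneg _) hNR' B0
      have h7 : |u' - u| + 2 ≤ 4 * (R : ℝ) ^ A := by
        rw [abs_of_nonneg (by linarith)]
        have : (1 : ℝ) ≤ (R : ℝ) ^ A := one_le_pow₀ hR1
        linarith
      have h8 : (R : ℝ) ^ B = (R : ℝ) ^ A * (R : ℝ) ^ (A * B0) := by
        rw [hB, pow_add]
      have h9 : (0 : ℝ) < (R : ℝ) ^ A := by positivity
      have h10 : (0 : ℝ) < (R : ℝ) ^ (A * B0) := by positivity
      calc CL * (N : ℝ) ^ B0 * (1 / (R : ℝ) ^ B) * (|u' - u| + 2)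
          ≤ CL * (R : ℝ) ^ (A * B0) * (1 / (R : ℝ) ^ B) * (4 * (R : ℝ) ^ A) := by
            refine mul_le_mul ?_ h7 (by positivity) (by positivity)
            refine mul_le_mul_of_nonneg_right ?_ hr0
            exact mul_le_mul_of_nonneg_left h6 hCL.le
        _ = 4 * CL := by
            rw [h8]
            field_simp
    have h6 : Y R t ≤ (2 * K + 1) * ((R : ℝ) ^ δ * H) := by
      rw [hY]
      simp only [ht]
      have h7 : |sc R B v' - sc R B v| ≤ H + 2 := by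
        rw [abs_of_nonneg (by linarith)]
        have h8 := (abs_le.1 hr1)
        have h9 := (abs_le.1 hr2)
        have h10 : sc R B v' ≤ u' + 1 / (R : ℝ) ^ B := by linarith [h9.1]
        have h11 : u - 1 / (R : ℝ) ^ B ≤ sc R B v := by linarith [h8.2]
        linarith
      have h7' : |sc R B v' - sc R B v| ≤ 2 * H := by
        rw [abs_of_nonneg (by linarith)]
        have h8 : sc R B v' ≤ u' := by
          unfold sc
          rw [div_le_iff₀ hBp]
          exact Int.floor_le _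
        have h11 : u - 1 / (R : ℝ) ^ B ≤ sc R B v := by linarith [(abs_le.1 hr1).2]
        linarith
      have h8 : (R : ℝ) ^ (A * η) ≤ (R : ℝ) ^ δ := by
        refine Real.rpow_le_rpow_of_exponent_le hR1 ?_
        rw [hη, mul_div_assoc', div_le_iff₀ (by positivity)]
        nlinarith
      have h9 : K * (R : ℝ) ^ (A * η) * |sc R B v' - sc R B v| ≤ K * (R : ℝ) ^ δ * (2 * H) := by
        refine mul_le_mul (mul_le_mul_of_nonneg_left h8 hK0.le) h7' (abs_nonneg _) (by positivity)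
      have h10 : 1 ≤ (R : ℝ) ^ δ * H := by nlinarith
      nlinarith
    have h7 : (R : ℝ) ^ (δ / 2) * Real.sqrt (Y R t) ≤
        Real.sqrt (2 * K + 1) * (Real.sqrt H * (R : ℝ) ^ δ) := by
      have h8 : Real.sqrt (Y R t) ≤ Real.sqrt (2 * K + 1) * ((R : ℝ) ^ (δ / 2) * Real.sqrt H) := by
        refine (Real.sqrt_le_sqrt h6).trans (le_of_eq ?_)
        rw [Real.sqrt_mul (by positivity), Real.sqrt_mul (by positivity)]
        congr 2
        rw [Real.sqrt_eq_rpow, ← Real.rpow_mul (by linarith)]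
        congr 1
        ring
      calc (R : ℝ) ^ (δ / 2) * Real.sqrt (Y R t) ≤
            (R : ℝ) ^ (δ / 2) * (Real.sqrt (2 * K + 1) * ((R : ℝ) ^ (δ / 2) * Real.sqrt H)) :=
            mul_le_mul_of_nonneg_left h8 (by positivity)
        _ = Real.sqrt (2 * K + 1) * (Real.sqrt H * ((R : ℝ) ^ (δ / 2) * (R : ℝ) ^ (δ / 2))) := by
            ring
        _ = _ := by
            rw [← Real.rpow_add (by linarith)]
            congr 3
            ring
    have h8 : ‖∫ t in u..u', FF ω α β N t‖ ≤ 4 * CL + Real.sqrt (2 * K + 1) *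
        (Real.sqrt H * (R : ℝ) ^ δ) := by
      have h9 := norm_sub_norm_le (∫ t in u..u', FF ω α β N t)
        (∫ s in (sc R B v)..(sc R B v'), FF ω (fun j => sc R B (α' j)) (fun j => sc R B (β' j)) N s)
      linarith [h4.trans h5, h3.trans h7]
    refine h8.trans ?_
    have h9 : 0 ≤ 2 * CL * ((R0 : ℝ) ^ A) ^ B0 * ((R0 : ℝ) ^ A + 1) := by positivity
    have h10 : 0 ≤ (2 * CL * ((R0 : ℝ) ^ A) ^ B0 * ((R0 : ℝ) ^ A + 1)) *
        (Real.sqrt H * (R : ℝ) ^ δ) := by positivity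
    have h11 : 4 * CL ≤ 4 * CL * (Real.sqrt H * (R : ℝ) ^ δ) :=
      le_mul_of_one_le_right (by positivity) hp
    rw [add_mul, add_mul]
    linarith

end Pool.Agent.Q255.ZS
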