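import Pool.Agent.Q255.RM.Sums
import Pool.Agent.Q255.RM.Poly
import Pool.Agent.Q255.HC.Stm

set_option autoImplicit false

/-!
# Project ZS (helper255): shifted moments of almost every twist of zeta, in all windows

`f` is the completely multiplicative function with independent uniform values on the circle at the
primes (library `Pool.Agent.Q255.RM`), `g t n = n^(-1/2-it)`, `Z(t) = ∑_{n ≤ N} f(n) n^(-1/2-it)`.
-/

namespace Pool.Agent.Q255.ZS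

open MeasureTheory Filter Topology Finset
open Q289.PAM
open Pool.Agent.Q255.RM (f fac g E J L)
open Pool.Agent.Q255.HC (Sys ex)

noncomputable section

/-- `Z(t) = ∑_{n ≤ N} f(n) n^(-1/2-it)` -/
def ZN (ω : ℕ → UnitAddCircle) (N : ℕ) (t : ℝ) : ℂ := ∑ n ∈ Icc 1 N, f ω n * g t n

/-- `∑ ∏_i v_i^(-i α_i)` over the tuples `v` in `[1, N]^k` with product `m` -/
def tau {k : ℕ} (α : Fin k → ℝ) (N m : ℕ) : ℂ :=
  ∑ v ∈ (Fintype.piFinset fun _ : Fin k => Icc 1 N).filter (fun v => ∏ i, v i = m),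
    ∏ i, (v i : ℂ) ^ (-((α i : ℂ) * Complex.I))

/-- the diagonal `∑_m τ_α(m) conj τ_β(m) / m` -/
def DS {k : ℕ} (α β : Fin k → ℝ) (N : ℕ) : ℂ :=
  ∑ m ∈ Icc 1 (N ^ k), tau α N m * star (tau β N m) / m

/-- `∏_j Z(t+α_j) conj Z(t+β_j)` minus the diagonal -/
def FF {k : ℕ} (ω : ℕ → UnitAddCircle) (α β : Fin k → ℝ) (N : ℕ) (t : ℝ) : ℂ :=
  (∏ j, ZN ω N (t + α j)) * (∏ j, star (ZN ω N (t + β j))) - DS α β N

/-- the powers of a point of the circle -/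
def ec (j : ℤ) (x : UnitAddCircle) : ℂ := fourier j x

/-- the weights -/
def vc (j : ℤ) : ℝ := if j = 0 then 1 else 4 * (j : ℝ) ^ 2

/-- SYS: the powers form a system in the sense of project HC (`∑_{j ≠ 0} 1/(4j²) = π²/12 < 1`), and
`f(a) conj f(b)` is the product of the powers given by `fac a - fac b`. -/
def S_SYS : Prop := Sys (volume : Measure UnitAddCircle) ec vc ∧
  ∀ (ω : ℕ → UnitAddCircle) (a b : ℕ), 1 ≤ a → 1 ≤ b →
    f ω a * star (f ω b) = ex ec (fac a - fac b) ω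

/-- WG: the weights of the characters are small.
Proof: `K · 4 j² ≤ (1 + |j|)^s` for all `j ≠ 0` if `s` is large, `|j| ≤ v_p(a) + v_p(b) = v_p(ab)`, so the
product is at most `τ(ab)^s`. -/
def S_WG : Prop := ∀ K : ℝ, 1 ≤ K → ∀ η : ℝ, 0 < η → ∃ D : ℝ, 0 < D ∧ ∀ a b : ℕ, 1 ≤ a → 1 ≤ b →
  ∏ p ∈ (fac a - fac b).support, (K * vc ((fac a - fac b) p)) ≤ D * ((a : ℝ) * b) ^ η

/-- EXP: the integral over a window as a sum over characters.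
Proof: `∏_j Z(t+α_j) = ∑_{m ≤ N^k} τ_α(m) f(m) g t m` (compare `pow_expand` in `RM/Poly`), so the
integral of `FF` is `∑_{a ≠ b} τ_α(a) conj τ_β(b) (∫_u^u' E (a,b)) f(a) conj f(b)`. Group the pairs by
`fac a - fac b`: the pairs of one group are `(g a', g b')` with one coprime pair `(a', b')`, and
`E (g a', g b') t = E (a', b') t / g`. With `|τ| ≤ d_k ≤ C N^(η/8)` (`dk_le`, divisor bound) the
coefficient is at most `C N^(η/4) L(N^k) |∫_u^u' E (a',b')|`, and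
`|∫_u^u' E (a,b)|² ≤ min((u'-u)², 4 max²/(a-b)²)/(ab) ≤ 2 (u'-u) wt(a,b)` (`norm_J_le_length`,
`norm_J_le_inv`, and `min(H²,Y²) ≤ H Y`), and `∑ wt ≤ 2 L³` (`sum_wt_le`), `L(M) ≤ 1 + log M`. -/
def S_EXP : Prop := ∀ (k : ℕ) (η : ℝ), 0 < η → ∃ K : ℝ, 0 < K ∧ ∀ (N : ℕ) (α β : Fin k → ℝ)
  (u u' : ℝ), 1 ≤ N → u ≤ u' → ∃ (S : Finset (ℕ →₀ ℤ)) (c : (ℕ →₀ ℤ) → ℂ),
    (∀ x ∈ S, ∃ a b : ℕ, 1 ≤ a ∧ a ≤ N ^ k ∧ 1 ≤ b ∧ b ≤ N ^ k ∧ x = fac a - fac b) ∧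
    ∑ x ∈ S, ‖c x‖ ^ 2 ≤ K * (N : ℝ) ^ η * (u' - u) ∧
    ∀ ω : ℕ → UnitAddCircle, ∫ t in u..u', FF ω α β N t = ∑ x ∈ S, c x * ex ec x ω

/-- LIP: Lipschitz bounds in the shifts, and a trivial bound; continuity in `t`. -/
def S_LIP : Prop := ∀ k : ℕ, ∃ (B : ℕ) (C : ℝ), 0 < C ∧ ∀ (ω : ℕ → UnitAddCircle) (N : ℕ)
  (α β α' β' : Fin k → ℝ) (r : ℝ), 1 ≤ N → (∀ j, |α j - α' j| ≤ r) → (∀ j, |β j - β' j| ≤ r) →
  Continuous (FF ω α β N) ∧ ∀ t : ℝ,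
    ‖FF ω α β N t‖ ≤ C * (N : ℝ) ^ B ∧
    ‖FF ω α β N t - FF ω α' β' N t‖ ≤ C * (N : ℝ) ^ B * r

/-- LOZ: the mean square over `ω` for the shifts `0`: the exponent `1/2` is the true one.
Proof: orthonormality of the characters; the coefficient of the character of a coprime pair
`(a, a+1)`, `a < N`, is `(∫_u^(u+H) E (a,a+1)) ∑_g d_k(ga) d_k(g(a+1))/g`, of modulus at least
`|∫ E|`, since `d_k ≥ 1` on `[1, N]`; for `H ≤ a ≤ 2H` one has `|∫ E|² ≥ c H²/a²`; there are about `H`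
such `a`. -/
def S_LOZ : Prop := ∃ c : ℝ, 0 < c ∧ ∀ (k N : ℕ) (u H : ℝ), 1 ≤ k → 2 ≤ H → 4 * H ≤ N →
  c * H ≤ ∫ ω, ‖∫ t in u..(u + H), FF ω (fun _ : Fin k => 0) (fun _ => 0) N t‖ ^ 2 ∂PT

end

end Pool.Agent.Q255.ZS
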